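import Pool.Agent.R731.LK.Result

/-!
# `(L_3)` does not imply `(L_2)` (MP_9e0eae_gt, Q1)
-/

set_option autoImplicit false

namespace Pool.Agent.Results.MP_9e0eae_gt.CubicNotQuadratic

open Pool.Agent.R731.LK

/-- There is a 4-dimensional Riemannian manifold (a connected open subset of `ℝ⁴` with a smooth
metric, a warped product of two pieces of round 2-spheres) with `g(Ric_L(T), T) ≥ 0` for all
symmetric `(0,3)`-tensors `T` at all points, but with `g(Ric_L(S), S) < 0` for some symmetric
`(0,2)`-tensor `S` at some point. -/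
theorem result : ∃ M : RDomain 4, CondL M 3 ∧ ¬ CondL M 2 :=
  ⟨MM, condL3, not_condL2⟩

end Pool.Agent.Results.MP_9e0eae_gt.CubicNotQuadratic
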